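import Pool.Agent.W203.WS.Stm

set_option autoImplicit false

open MeasureTheory Finset

namespace Pool.Agent.W643.WS

open Pool.Agent.W203.WS

theorem norm_e (x : ℝ) : ‖e x‖ = 1 := by
  unfold e
  have : (2 * (Real.pi : ℂ) * Complex.I * (x : ℂ)) = ((2 * Real.pi * x : ℝ) : ℂ) * Complex.I := by
    push_cast; ring
  rw [this, Complex.norm_exp_ofReal_mul_I]

theorem t_FDT : S_FDT := by
  intro φ φ' φ'' a b μ hab hμ h1 h2 hc hm hn
  have hpi : (0:ℝ) < Real.pi := Real.pi_pos
  set c : ℂ := 2 * (Real.pi : ℂ) * Complex.I with hcdef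
  have hc0 : c ≠ 0 := by
    simp only [hcdef]
    exact mul_ne_zero (mul_ne_zero two_ne_zero (by exact_mod_cast hpi.ne')) Complex.I_ne_zero
  have hcn : ‖c‖ = 2 * Real.pi := by
    simp only [hcdef, norm_mul, Complex.norm_I, Complex.norm_real, mul_one]
    simp [abs_of_pos hpi]
  have hpos : ∀ x ∈ Set.Icc a b, 0 < φ' x := fun x hx => lt_of_lt_of_le hμ (hm x hx)
  have hne : ∀ x ∈ Set.Icc a b, (φ' x : ℂ) ≠ 0 := fun x hx => by
    exact_mod_cast (hpos x hx).ne'
  have he : ∀ x ∈ Set.Icc a b, HasDerivAt (fun y => e (φ y)) (c * (φ' x : ℂ) * e (φ x)) x := by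
    intro x hx
    have h := (h1 x hx).ofReal_comp
    have h3 := (h.const_mul c).cexp
    have : (fun y => e (φ y)) = fun y => Complex.exp (c * (φ y : ℂ)) := by
      funext y; rfl
    rw [this]
    convert h3 using 1
    show c * (φ' x : ℂ) * e (φ x) = _
    unfold e
    ring
  let F : ℝ → ℂ := fun x => e (φ x) / (c * (φ' x : ℂ))
  let G : ℝ → ℂ := fun x => e (φ x) * (φ'' x : ℂ) / (c * (φ' x : ℂ) ^ 2)
  have hF : ∀ x ∈ Set.Icc a b, HasDerivAt F (e (φ x) - G x) x := by
    intro x hx
    have hd := ((h2 x hx).ofReal_comp.const_mul c)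
    have hq := (he x hx).div hd (mul_ne_zero hc0 (hne x hx))
    refine hq.congr_deriv ?_
    have h5 := hne x hx
    show _ = e (φ x) - e (φ x) * (φ'' x : ℂ) / (c * (φ' x : ℂ) ^ 2)
    field_simp
  have hφ' : ContinuousOn (fun x => (φ' x : ℂ)) (Set.Icc a b) := fun x hx =>
    (h2 x hx).ofReal_comp.continuousAt.continuousWithinAt
  have hec : ContinuousOn (fun x => e (φ x)) (Set.Icc a b) := fun x hx =>
    (he x hx).continuousAt.continuousWithinAt
  have hGc : ContinuousOn G (Set.Icc a b) := by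
    apply ContinuousOn.div
    · exact hec.mul (Complex.continuous_ofReal.comp_continuousOn hc)
    · exact continuousOn_const.mul (hφ'.pow 2)
    · intro x hx
      exact mul_ne_zero hc0 (pow_ne_zero 2 (hne x hx))
  have huIcc : Set.uIcc a b = Set.Icc a b := Set.uIcc_of_le hab
  have hei : IntervalIntegrable (fun x => e (φ x)) volume a b :=
    ContinuousOn.intervalIntegrable (by rw [huIcc]; exact hec)
  have hGi : IntervalIntegrable G volume a b :=
    ContinuousOn.intervalIntegrable (by rw [huIcc]; exact hGc)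
  have key := intervalIntegral.integral_eq_sub_of_hasDerivAt (f := F)
    (f' := fun x => e (φ x) - G x) (a := a) (b := b)
    (by rw [huIcc]; exact hF) (hei.sub hGi)
  rw [intervalIntegral.integral_sub hei hGi] at key
  have hmain : ∫ x in a..b, e (φ x) = F b - F a + ∫ x in a..b, G x := by
    rw [← key]; ring
  -- bounds
  have hFb : ∀ x ∈ Set.Icc a b, ‖F x‖ ≤ 1 / (2 * Real.pi * μ) := by
    intro x hx
    simp only [F, norm_div, norm_mul, norm_e, hcn, Complex.norm_real, Real.norm_eq_abs,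
      abs_of_pos (hpos x hx)]
    apply one_div_le_one_div_of_le (by positivity)
    exact mul_le_mul_of_nonneg_left (hm x hx) (by positivity)
  -- the real integral
  have hH : ∀ x ∈ Set.Icc a b, HasDerivAt (fun y => -(φ' y)⁻¹) (φ'' x / (φ' x) ^ 2) x := by
    intro x hx
    have h5 := ((h2 x hx).inv (hpos x hx).ne').neg
    exact h5.congr_deriv (by ring)
  have hRc : ContinuousOn (fun x => φ'' x / (φ' x) ^ 2) (Set.Icc a b) := by
    apply hc.div
    · exact fun x hx => ((h2 x hx).continuousAt.continuousWithinAt).pow 2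
    · intro x hx; exact pow_ne_zero 2 (hpos x hx).ne'
  have hRi : IntervalIntegrable (fun x => φ'' x / (φ' x) ^ 2) volume a b :=
    ContinuousOn.intervalIntegrable (by rw [huIcc]; exact hRc)
  have hR := intervalIntegral.integral_eq_sub_of_hasDerivAt (f := fun y => -(φ' y)⁻¹)
    (f' := fun x => φ'' x / (φ' x) ^ 2) (a := a) (b := b) (by rw [huIcc]; exact hH) hRi
  have hGb : ‖∫ x in a..b, G x‖ ≤ 1 / (2 * Real.pi * μ) := by
    have h3 : ‖∫ x in a..b, G x‖ ≤
        ∫ x in a..b, (1 / (2 * Real.pi)) * (φ'' x / (φ' x) ^ 2) := by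
      apply intervalIntegral.norm_integral_le_of_norm_le hab
      · refine Filter.Eventually.of_forall (fun x hx => ?_)
        have hx' : x ∈ Set.Icc a b := Set.Ioc_subset_Icc_self hx
        have hp := hpos x hx'
        have hnn := hn x hx'
        simp only [G, norm_div, norm_mul, norm_pow, norm_e, hcn, Complex.norm_real,
          Real.norm_eq_abs, abs_of_pos hp, abs_of_nonneg hnn, one_mul]
        apply le_of_eq
        field_simp
      · exact hRi.const_mul _
    rw [intervalIntegral.integral_const_mul, hR] at h3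
    have ha : a ∈ Set.Icc a b := Set.left_mem_Icc.2 hab
    have hb : b ∈ Set.Icc a b := Set.right_mem_Icc.2 hab
    have h4 : -(φ' b)⁻¹ - -(φ' a)⁻¹ ≤ 1 / μ := by
      have h5 : (φ' a)⁻¹ ≤ 1 / μ := by
        rw [one_div]
        exact inv_anti₀ hμ (hm a ha)
      have h6 : 0 ≤ (φ' b)⁻¹ := (inv_pos.2 (hpos b hb)).le
      linarith
    calc ‖∫ x in a..b, G x‖ ≤ 1 / (2 * Real.pi) * (-(φ' b)⁻¹ - -(φ' a)⁻¹) := h3
      _ ≤ 1 / (2 * Real.pi) * (1 / μ) := mul_le_mul_of_nonneg_left h4 (by positivity)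
      _ = 1 / (2 * Real.pi * μ) := by field_simp
  have ha : a ∈ Set.Icc a b := Set.left_mem_Icc.2 hab
  have hb : b ∈ Set.Icc a b := Set.right_mem_Icc.2 hab
  rw [hmain]
  calc ‖F b - F a + ∫ x in a..b, G x‖ ≤ ‖F b - F a‖ + ‖∫ x in a..b, G x‖ := norm_add_le _ _
    _ ≤ (‖F b‖ + ‖F a‖) + ‖∫ x in a..b, G x‖ := by gcongr; exact norm_sub_le _ _
    _ ≤ 1 / (2 * Real.pi * μ) + 1 / (2 * Real.pi * μ) + 1 / (2 * Real.pi * μ) := by
        gcongr
        · exact hFb b hb
        · exact hFb a ha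
    _ = 3 / (2 * Real.pi) * (1 / μ) := by field_simp; ring
    _ ≤ 1 * (1 / μ) := by
        apply mul_le_mul_of_nonneg_right _ (by positivity)
        rw [div_le_one (by positivity)]
        linarith [Real.pi_gt_three]
    _ = 1 / μ := one_mul _

end Pool.Agent.W643.WS
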